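import Mathlib
import Pool.Agent.Q31.GLV.Stm

/-!
# Job GLV-GEN
-/

set_option autoImplicit false

namespace Pool.Agent.Q231.GLV

open Pool.Agent.Q31.GLV Module Cardinal Submodule

section
variable {F V : Type} [Field F] [AddCommGroup V] [Module F V]

theorem gen_large (A : Submodule F V) (f g : V →ₗ[F] V) (hf : Function.Injective f)
    (hfA : ∀ v, f v ∈ A) (hg : ∀ v, g v ∈ A → v = 0) : Large A := by
  constructor
  · apply le_antisymm (Submodule.rank_le A)
    refine LinearMap.rank_le_of_injective (f.codRestrict A hfA) ?_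
    intro x y hxy
    apply hf
    have := congrArg Subtype.val hxy
    simpa using this
  · apply le_antisymm (rank_quotient_le A)
    refine LinearMap.rank_le_of_injective (A.mkQ ∘ₗ g) ?_
    rw [← LinearMap.ker_eq_bot, LinearMap.ker_eq_bot']
    intro v hv
    apply hg
    rw [LinearMap.comp_apply, Submodule.mkQ_apply, Submodule.Quotient.mk_eq_zero] at hv
    exact hv

/-- images of large subspaces -/
theorem gen_large_map (A : Submodule F V) (hA : Large A) (t : V ≃ₗ[F] V) :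
    Large (A.map (t : V →ₗ[F] V)) := by
  constructor
  · rw [← hA.1]
    exact (t.submoduleMap A).rank_eq.symm
  · rw [← hA.2]
    exact (Submodule.Quotient.equiv A (A.map (t : V →ₗ[F] V)) t rfl).rank_eq.symm

theorem gen_full (hFX : S_FX) (hV : ℵ₀ ≤ Module.rank F V) (S : Subgroup (V ≃ₗ[F] V))
    (hS : HasTv S) : Full S := by
  intro U hU g
  obtain ⟨C, hC⟩ := U.exists_isCompl
  have hCl : Large C := by
    constructor
    · rw [← hU.2]
      exact (Submodule.quotientEquivOfIsCompl U C hC).rank_eq.symm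
    · rw [← hU.1]
      exact (Submodule.quotientEquivOfIsCompl C U hC.symm).rank_eq
  obtain ⟨e, he⟩ : ∃ e : (U × C) ≃ₗ[F] V, e = Submodule.prodEquivOfIsCompl U C hC := ⟨_, rfl⟩
  have he' : ∀ (u : U) (c : C), e (u, c) = (u : V) + (c : V) := by
    intro u c
    rw [he]
    simp
  refine ⟨(e.symm.trans (LinearEquiv.prodCongr g (LinearEquiv.refl F C))).trans e, ?_, ?_⟩
  · refine hFX F V hV S hS C hCl _ ?_
    intro c hc
    have h1 : e.symm c = (0, ⟨c, hc⟩) := by
      rw [LinearEquiv.symm_apply_eq, he']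
      simp
    show e (LinearEquiv.prodCongr g (LinearEquiv.refl F C) (e.symm c)) = c
    rw [h1]
    show e (g 0, (⟨c, hc⟩ : C)) = c
    rw [map_zero, he']
    simp
  · intro u
    have h1 : e.symm (u : V) = (u, 0) := by
      rw [LinearEquiv.symm_apply_eq, he']
      simp
    show e (LinearEquiv.prodCongr g (LinearEquiv.refl F C) (e.symm (u : V))) = (g u : V)
    rw [h1]
    show e (g u, (0 : C)) = (g u : V)
    rw [he']
    simp

end

theorem t_GEN (hFX : S_FX) (hTRA : S_TRA) : S_GEN := by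
  intro F V _ _ _ hV S hS
  have hfull := gen_full hFX hV S hS
  obtain ⟨φ⟩ : Nonempty (V ≃ₗ[F] V × V × V) := by
    refine nonempty_linearEquiv_of_rank_eq ?_
    rw [rank_prod', rank_prod', Cardinal.add_eq_self hV, Cardinal.add_eq_self hV]
  -- the three embeddings
  obtain ⟨a, ha⟩ : ∃ a : V →ₗ[F] V, ∀ v, a v = φ.symm (v, 0, 0) :=
    ⟨(φ.symm : (V × V × V) →ₗ[F] V) ∘ₗ LinearMap.inl F V (V × V), fun v => rfl⟩
  obtain ⟨b, hb⟩ : ∃ b : V →ₗ[F] V, ∀ v, b v = φ.symm (0, v, 0) :=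
    ⟨(φ.symm : (V × V × V) →ₗ[F] V) ∘ₗ LinearMap.inr F V (V × V) ∘ₗ LinearMap.inl F V V,
      fun v => rfl⟩
  obtain ⟨c, hc⟩ : ∃ c : V →ₗ[F] V, ∀ v, c v = φ.symm (0, 0, v) :=
    ⟨(φ.symm : (V × V × V) →ₗ[F] V) ∘ₗ LinearMap.inr F V (V × V) ∘ₗ LinearMap.inr F V V,
      fun v => rfl⟩
  have ia : Function.Injective a := by
    intro x y h
    rw [ha, ha] at h
    have := congrArg Prod.fst (φ.symm.injective h)
    simpa using this
  have ib : Function.Injective b := by
    intro x y h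
    rw [hb, hb] at h
    have := congrArg (fun p : V × V × V => p.2.1) (φ.symm.injective h)
    simpa using this
  have ic : Function.Injective c := by
    intro x y h
    rw [hc, hc] at h
    have := congrArg (fun p : V × V × V => p.2.2) (φ.symm.injective h)
    simpa using this
  have hA : Large (LinearMap.range a) := by
    refine gen_large _ a b ia (fun v => ⟨v, rfl⟩) ?_
    rintro v ⟨w, hw⟩
    rw [ha, hb] at hw
    have := congrArg (fun p : V × V × V => p.2.1) (φ.symm.injective hw)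
    simpa using this.symm
  have hB : Large (LinearMap.range b) := by
    refine gen_large _ b a ib (fun v => ⟨v, rfl⟩) ?_
    rintro v ⟨w, hw⟩
    rw [ha, hb] at hw
    have := congrArg (fun p : V × V × V => p.1) (φ.symm.injective hw)
    simpa using this.symm
  have hR : Large (LinearMap.range c) := by
    refine gen_large _ c a ic (fun v => ⟨v, rfl⟩) ?_
    rintro v ⟨w, hw⟩
    rw [ha, hc] at hw
    have := congrArg (fun p : V × V × V => p.1) (φ.symm.injective hw)
    simpa using this.symm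
  rw [Subgroup.eq_top_iff']
  intro t
  obtain ⟨r, hr, hrA⟩ := hTRA F V hV S hfull (LinearMap.range a)
    ((LinearMap.range b).map ((t⁻¹ : V ≃ₗ[F] V) : V →ₗ[F] V)) hA (gen_large_map _ hB _)
  obtain ⟨u, hu⟩ : ∃ u : V ≃ₗ[F] V, u = t * r := ⟨_, rfl⟩
  -- `u` maps `A` onto `A'`
  have h1 : ∀ x, ∃ y, u (a x) = b y := by
    intro x
    have hx : (r : V →ₗ[F] V) (a x) ∈
        (LinearMap.range b).map ((t⁻¹ : V ≃ₗ[F] V) : V →ₗ[F] V) := by
      rw [← hrA]
      exact Submodule.mem_map_of_mem ⟨x, rfl⟩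
    obtain ⟨z, ⟨y, rfl⟩, hz⟩ := hx
    refine ⟨y, ?_⟩
    rw [hu]
    show t (r (a x)) = b y
    have hz' : (t⁻¹ : V ≃ₗ[F] V) (b y) = r (a x) := hz
    rw [← hz']
    exact t.apply_symm_apply (b y)
  have h2 : ∀ y, ∃ x, u (a x) = b y := by
    intro y
    have hy : (t⁻¹ : V ≃ₗ[F] V) (b y) ∈ (LinearMap.range a).map (r : V →ₗ[F] V) := by
      rw [hrA]
      exact ⟨b y, ⟨y, rfl⟩, rfl⟩
    obtain ⟨z, ⟨x, rfl⟩, hz⟩ := hy
    refine ⟨x, ?_⟩
    rw [hu]
    show t (r (a x)) = b y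
    have hz' : r (a x) = (t⁻¹ : V ≃ₗ[F] V) (b y) := hz
    rw [hz']
    exact t.apply_symm_apply (b y)
  obtain ⟨w₀, hw₀⟩ : ∃ w₀ : V →ₗ[F] V, ∀ x, w₀ x = (φ (u (a x))).2.1 :=
    ⟨LinearMap.fst F V V ∘ₗ LinearMap.snd F V (V × V) ∘ₗ (φ : V →ₗ[F] V × V × V) ∘ₗ
      (u : V →ₗ[F] V) ∘ₗ a, fun x => rfl⟩
  have h3 : ∀ x, u (a x) = b (w₀ x) := by
    intro x
    obtain ⟨y, hy⟩ := h1 x
    have : w₀ x = y := by
      rw [hw₀, hy, hb, LinearEquiv.apply_symm_apply]
    rw [this, hy]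
  have hwb : Function.Bijective w₀ := by
    constructor
    · intro x y hxy
      apply ia
      apply u.injective
      rw [h3, h3, hxy]
    · intro y
      obtain ⟨x, hx⟩ := h2 y
      refine ⟨x, ib ?_⟩
      rw [← h3, hx]
  obtain ⟨w, hw⟩ : ∃ w : V ≃ₗ[F] V, ∀ x, w x = w₀ x := ⟨LinearEquiv.ofBijective w₀ hwb, fun x => rfl⟩
  -- the map `s`
  obtain ⟨σ, hσ⟩ : ∃ σ : (V × V × V) ≃ₗ[F] (V × V × V), ∀ x y z, σ (x, y, z) = (w.symm y, w x, z) := by
    refine ⟨LinearEquiv.ofInvolutive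
      ((LinearMap.prod ((w.symm : V →ₗ[F] V) ∘ₗ LinearMap.fst F V V ∘ₗ LinearMap.snd F V (V × V))
        (LinearMap.prod ((w : V →ₗ[F] V) ∘ₗ LinearMap.fst F V (V × V))
          (LinearMap.snd F V V ∘ₗ LinearMap.snd F V (V × V))))) ?_, fun x y z => rfl⟩
    rintro ⟨x, y, z⟩
    show (w.symm (w x), w (w.symm y), z) = (x, y, z)
    rw [LinearEquiv.symm_apply_apply, LinearEquiv.apply_symm_apply]
  obtain ⟨s, hs⟩ : ∃ s : V ≃ₗ[F] V, ∀ v, s v = φ.symm (σ (φ v)) :=
    ⟨(φ.trans σ).trans φ.symm, fun v => rfl⟩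
  have hsR : s ∈ S := by
    refine hFX F V hV S hS _ hR s ?_
    rintro _ ⟨z, rfl⟩
    rw [hs, hc, LinearEquiv.apply_symm_apply, hσ, map_zero, map_zero]
  have hsA : ∀ x, s (a x) = u (a x) := by
    intro x
    rw [h3, hs, ha, LinearEquiv.apply_symm_apply, hσ, map_zero, hb, hw]
  have hsu : s⁻¹ * u ∈ S := by
    refine hFX F V hV S hS _ hA _ ?_
    rintro _ ⟨x, rfl⟩
    show s.symm (u (a x)) = a x
    rw [← hsA]
    exact s.symm_apply_apply _
  have huS : u ∈ S := by
    have := S.mul_mem hsR hsu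
    rwa [mul_inv_cancel_left] at this
  have : t = u * r⁻¹ := by rw [hu, mul_inv_cancel_right]
  rw [this]
  exact S.mul_mem huS (S.inv_mem hr)

end Pool.Agent.Q231.GLV
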